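import Mathlib

set_option autoImplicit false

namespace Pool.Agent.Results.MP_17a11e_co.Fourteen

/-- every level line of `f` contains no point or exactly two points of `S` -/
def ZeroOrTwo (S : Finset (ℝ × ℝ)) (f : ℝ × ℝ → ℝ) : Prop :=
  ∀ c : ℝ, {p | p ∈ S ∧ f p = c}.ncard = 0 ∨ {p | p ∈ S ∧ f p = c}.ncard = 2

def T : Finset (ℤ × ℤ) := {(0, 4), (0, 5), (1, 2), (1, 5), (2, 4), (2, 7), (3, 0), (3, 2), (4, 0),
  (4, 6), (6, 3), (6, 7), (7, 3), (7, 6)}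

def ca (p : ℤ × ℤ) : ℝ × ℝ := (p.1, p.2)

lemma ca_inj : Function.Injective ca := by
  intro p q h
  simp only [ca, Prod.mk.injEq, Int.cast_inj] at h
  exact Prod.ext h.1 h.2

lemma key (f : ℝ × ℝ → ℝ) (g : ℤ × ℤ → ℤ) (hfg : ∀ p, f (ca p) = g p)
    (h : ∀ p ∈ T, (T.filter (fun q => g q = g p)).card = 2) :
    ZeroOrTwo (T.map ⟨ca, ca_inj⟩) f := by
  intro c
  by_cases he : ∃ p ∈ T, (g p : ℝ) = c
  · obtain ⟨p, hp, rfl⟩ := he
    right
    rw [← h p hp, ← Finset.card_map ⟨ca, ca_inj⟩, ← Set.ncard_coe_finset]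
    congr 1
    ext x
    simp only [Finset.mem_map, Function.Embedding.coeFn_mk, Set.mem_ofPred_eq, Finset.mem_coe,
      Finset.mem_filter]
    constructor
    · rintro ⟨⟨q, hq, rfl⟩, e⟩
      rw [hfg] at e
      exact ⟨q, ⟨hq, by exact_mod_cast e⟩, rfl⟩
    · rintro ⟨q, ⟨hq, e⟩, rfl⟩
      exact ⟨⟨q, hq, rfl⟩, by rw [hfg, e]⟩
  · left
    have : {p | p ∈ T.map ⟨ca, ca_inj⟩ ∧ f p = c} = ∅ := by
      ext x
      simp only [Finset.mem_map, Function.Embedding.coeFn_mk, Set.mem_ofPred_eq,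
        Set.mem_empty_iff_false, iff_false]
      rintro ⟨⟨q, hq, rfl⟩, e⟩
      exact he ⟨q, hq, by rw [← hfg, e]⟩
    rw [this, Set.ncard_empty]

theorem result : ∃ S : Finset (ℝ × ℝ), S.card = 14 ∧ ZeroOrTwo S (fun p => p.2) ∧
    ZeroOrTwo S (fun p => p.1) ∧ ZeroOrTwo S (fun p => p.2 - p.1) ∧
    ZeroOrTwo S (fun p => p.2 + p.1) := by
  refine ⟨T.map ⟨ca, ca_inj⟩, by rw [Finset.card_map]; decide,
    key _ (fun p => p.2) (fun p => rfl) (by decide), key _ (fun p => p.1) (fun p => rfl) (by decide),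
    key _ (fun p => p.2 - p.1) (fun p => by simp [ca]) (by decide),
    key _ (fun p => p.2 + p.1) (fun p => by simp [ca]) (by decide)⟩

end Pool.Agent.Results.MP_17a11e_co.Fourteen
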